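import Pool.Agent.P8H73.KV.Stm

set_option autoImplicit false

namespace Pool.Agent.P8H20.KV

open Finset Pool.Agent.P8H73.KV Pool.Agent.Y844.BT

theorem fin_aux {C1 D r X u E G0 : ℝ} (hC1 : 1 ≤ C1) (hD : 4 * C1 ≤ D) (hX8 : 8 ≤ X) (hX : X = D * r)
    (b1 : u ≤ 2 * r ^ 2) (b1' : 0 ≤ u) (hE : 0 ≤ E) (hG0 : 1 ≤ G0) :
    16 * ((C1 * u * u) ^ 20 * E) + 18 / G0 ≤ X ^ 100 * (E + 1 / G0) := by
  have hG : 0 < G0 := by linarith
  have b2 : C1 * u * u ≤ X ^ 4 := by
    have h1 : C1 * u * u ≤ C1 * (2 * r ^ 2) * (2 * r ^ 2) := by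
      apply mul_le_mul _ b1 b1' (by positivity)
      exact mul_le_mul_of_nonneg_left b1 (by linarith)
    have h4 : 1 ≤ D := by linarith
    have h2 : 4 * C1 ≤ D ^ 4 := by
      calc 4 * C1 ≤ D := hD
        _ = D ^ 1 := (pow_one _).symm
        _ ≤ _ := pow_le_pow_right₀ h4 (by norm_num)
    calc _ ≤ _ := h1
      _ = (4 * C1) * r ^ 4 := by ring
      _ ≤ D ^ 4 * r ^ 4 := mul_le_mul_of_nonneg_right h2 (by positivity)
      _ = X ^ 4 := by rw [hX]; ring
  have b3 : (C1 * u * u) ^ 20 ≤ X ^ 80 := by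
    have h := pow_le_pow_left₀ (by positivity) b2 20
    rwa [← pow_mul] at h
  have b4 : (18 : ℝ) ≤ X ^ 20 := by
    have h1 : X ^ 2 ≤ X ^ 20 := pow_le_pow_right₀ (by linarith) (by norm_num)
    nlinarith
  have b5 : (1 : ℝ) ≤ X ^ 80 := one_le_pow₀ (by linarith)
  have b6 : X ^ 100 = X ^ 20 * X ^ 80 := by rw [← pow_add]
  rw [b6]
  generalize X ^ 20 = A at *
  generalize X ^ 80 = B at *
  generalize (C1 * u * u) ^ 20 = W at *
  have c1 : 16 * (W * E) ≤ A * B * E := by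
    have : 16 * W ≤ A * B := by
      by_cases hW : 0 ≤ W
      · exact mul_le_mul (by linarith) b3 hW (by linarith)
      · push Not at hW
        nlinarith
    calc _ = (16 * W) * E := by ring
      _ ≤ _ := mul_le_mul_of_nonneg_right this hE
  have c2 : 18 / G0 ≤ A * B * (1 / G0) := by
    rw [div_eq_mul_one_div]
    apply mul_le_mul_of_nonneg_right _ (by positivity)
    nlinarith
  have : A * B * (E + 1 / G0) = A * B * E + A * B * (1 / G0) := by ring
  rw [this]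
  exact add_le_add c1 c2

theorem ea (hCORE : S_CORE) (hSEL : S_SEL) (hQB : S_QB) (hXA : S_XA) : S_EA := by
  obtain ⟨C1, hC1, core⟩ := hCORE
  obtain ⟨CX, hCX, xa⟩ := hXA
  refine ⟨8 * C1 + CX + 2, by linarith, ?_⟩
  intro s k l c L Δ g S R G0 Q hs hk hkQ hlk hΔ hg hgG hgk hR hG0 hS hCs hQ1 hQ2 hcor
  obtain ⟨h1S, hSm, hSd⟩ := hS
  obtain ⟨-, hlam1, hlam0, -⟩ := hSEL S h1S (fun m hm => (hSm m hm).1) hSd
  have hk1 : (1 : ℝ) ≤ k := by exact_mod_cast hk
  have hg1 : (1 : ℝ) ≤ g := by exact_mod_cast hg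
  have hgpos : (0 : ℝ) < g := by linarith
  have hs1 : (1 : ℝ) ≤ s := by exact_mod_cast hs
  have hQpos : 0 < Q := by linarith
  have hRpos : 0 < R := by linarith
  have hGpos : 0 < G0 := by linarith
  have hl0 : 0 ≤ Real.log G0 := Real.log_nonneg hG0
  have hsl : (1 : ℝ) ≤ s * (1 + Real.log G0) := by nlinarith
  have hsl2 : 1 + Real.log G0 ≤ s * (1 + Real.log G0) := by nlinarith
  have hss : (s : ℝ) ≤ s * (1 + Real.log G0) := by nlinarith
  set Y := s * (1 + Real.log G0) with hY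
  have hCs' : (8 * C1 + CX + 2) * Y ≤ Real.log R := by rw [hY]; linarith
  have hD1 : 1 ≤ 8 * C1 + CX + 2 := by linarith
  have hDY : (8 * C1 + CX + 2) * 1 ≤ (8 * C1 + CX + 2) * Y := mul_le_mul_of_nonneg_left hsl (by linarith)
  have hYY : 1 * Y ≤ (8 * C1 + CX + 2) * Y := mul_le_mul_of_nonneg_right hD1 (by linarith)
  have hlR8 : 8 ≤ Real.log R := by linarith
  have hlRs : (s : ℝ) ≤ Real.log R := by linarith
  have hGG : G0 * G0 ≤ R := by
    have h3 : 2 * Y ≤ (8 * C1 + CX + 2) * Y := mul_le_mul_of_nonneg_right (by linarith) (by linarith)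
    have h2 : 2 * (1 + Real.log G0) ≤ Real.log R := by linarith
    have : Real.log (G0 * G0) ≤ Real.log R := by
      rw [Real.log_mul hGpos.ne' hGpos.ne']; linarith
    exact (Real.log_le_log_iff (by positivity) hRpos).1 this
  have hGM : G0 ≤ R / g := by
    rw [le_div_iff₀ hgpos]
    calc G0 * g ≤ G0 * G0 := mul_le_mul_of_nonneg_left hgG hGpos.le
      _ ≤ R := hGG
  have hM1 : 0 < R / G0 := by positivity
  set T := S.filter (fun m : ℕ => R / G0 < (m : ℝ) ∧ (m : ℝ) ≤ R / g) with hT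
  have hmem : ∀ m ∈ T, R / G0 ≤ (m : ℝ) ∧ (m : ℝ) ≤ R / g ∧ Nat.Coprime m k := by
    intro m hm
    rw [hT, mem_filter] at hm
    exact ⟨hm.2.1.le, hm.2.2, (hSm m hm.1).2.1⟩
  have hcorn : ∀ (k' h : ℕ) (τ : ℤ), Cor c L Δ τ → k' ∣ k → 1 ≤ h → (h : ℝ) ≤ G0 → k ≤ k' * h →
      Q / (16 * G0) ≤ k' * (1 + h * |(k : ℝ) * τ + l| / (k * g * (R / G0 * (R / G0)))) ∧
      k' * (1 + h * |(k : ℝ) * τ + l| / (k * g * (R / G0 * (R / G0)))) ≤ 4 * Q * G0 ^ 3 := by
    intro k' h τ hτ hk' hh hhG hkh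
    obtain ⟨c1, c2⟩ := hcor τ hτ
    have := hQB k k' h g R G0 Q 1 |(k : ℝ) * τ + l| hk hkQ hk' hh hhG hkh hg hgG hG0 (by linarith) one_pos
      (abs_nonneg _) c1 c2
    simpa using this
  have hexp : ∀ q γ : ℝ, Q / (16 * G0) ≤ q → q ≤ 4 * Q * G0 ^ 3 → 0 < q → 1 ≤ γ → γ ≤ G0 →
      q * (1 + (R / g / γ) ^ (2 * s) / (R / G0 / γ * q)) * (1 + (R / g / γ) ^ (2 * s) / (R / G0 / γ * q)) ≤
        Real.exp (-(Real.log R / 3)) * ((R / g / γ) ^ s * (R / g / γ) ^ s) := by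
    intro q γ hq1 hq2 _ hγ hγG
    refine xa s R G0 Q q g γ hs hR hG0 hg1 hgG hγ hγG ?_ hQpos hQ1 hQ2 hq1 hq2
    calc CX * s * (1 + Real.log G0) = CX * Y := by rw [hY]; ring
      _ ≤ (8 * C1 + CX + 2) * Y := mul_le_mul_of_nonneg_right (by linarith) (by linarith)
      _ ≤ _ := hCs'
  have hmain := core s s hs hs (by omega) (by omega) k l c L Δ g T T (fun m => lam S (g * m)) (fun m => lam S (g * m))
    1 (R / g) (R / g) (R / G0) (R / G0) G0 (Q / (16 * G0)) (4 * Q * G0 ^ 3) (Real.log R / 3) hk hlk hΔ hg hgk one_pos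
    (fun m => hlam1 _) (fun m => hlam1 _) hM1 hM1 hG0 hGM hGM (by linarith) hmem hmem hcorn hexp
  -- the sum
  have hz : ∀ m : ℕ, ¬ (m : ℝ) ≤ R / g → lam S (g * m) = 0 := by
    intro m hm
    apply hlam0
    intro h
    apply hm
    rw [le_div_iff₀ hgpos]
    have := (hSm _ h).2.2
    push_cast at this
    linarith
  have hsum : Eg k l c L Δ S (R / G0) g = ∑ m ∈ T, ∑ n ∈ T,
      (if Nat.Coprime m n then 1 else 0) * (lam S (g * m) * lam S (g * n) * RR k l c L Δ (g * (m * n))) := by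
    have hTs : T ⊆ S.filter (fun m : ℕ => R / G0 < (m : ℝ)) := by
      intro m hm
      rw [hT, mem_filter] at hm
      rw [mem_filter]
      exact ⟨hm.1, hm.2.1⟩
    have hnot : ∀ m ∈ S.filter (fun m : ℕ => R / G0 < (m : ℝ)), m ∉ T → lam S (g * m) = 0 := by
      intro m hm hm'
      rw [mem_filter] at hm
      apply hz
      intro h
      exact hm' (by rw [hT, mem_filter]; exact ⟨hm.1, hm.2, h⟩)
    unfold Eg
    symm
    rw [← Finset.sum_subset hTs]
    · refine Finset.sum_congr rfl fun m _ => ?_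
      refine Finset.sum_subset hTs fun n hn hn' => ?_
      rw [hnot n hn hn']; ring
    · intro m hm hm'
      refine Finset.sum_eq_zero fun n _ => ?_
      rw [hnot m hm hm']; ring
  rw [hsum]
  refine hmain.trans ?_
  have hlM : Real.log (R / g) ≤ Real.log R := by
    apply Real.log_le_log (by positivity)
    exact div_le_self hRpos.le hg1
  have hlM0 : 0 ≤ Real.log (R / g) := by
    apply Real.log_nonneg
    linarith
  set r := Real.log R with hr
  have e1 : (1 : ℝ) ^ 2 * g * (R / g * (R / g)) ^ 2 / Δ = R ^ 4 / (g ^ 3 * Δ) := by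
    have : (Δ : ℝ) ≠ 0 := by
      have : 0 < Δ := hΔ
      positivity
    field_simp
  have e2 : -(r / 3) / (2 * s * s) = -(r / (6 * s ^ 2)) := by
    field_simp
    ring
  rw [e1, e2]
  have hΔpos : (0 : ℝ) ≤ R ^ 4 / (g ^ 3 * Δ) := by positivity
  apply mul_le_mul_of_nonneg_left _ hΔpos
  have hX8 : 8 ≤ (8 * C1 + CX + 2) * r := by
    have : 1 * r ≤ (8 * C1 + CX + 2) * r := mul_le_mul_of_nonneg_right hD1 (by linarith)
    linarith
  set X := (8 * C1 + CX + 2) * r with hX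
  have b1 : 1 + s * Real.log (R / g) ≤ 2 * r ^ 2 := by
    have h1 : s * Real.log (R / g) ≤ r * r := mul_le_mul hlRs hlM hlM0 (by linarith)
    have h2 : 1 * 1 ≤ r * r := mul_le_mul (by linarith) (by linarith) zero_le_one (by linarith)
    linarith [sq r]
  have b1' : 0 ≤ 1 + s * Real.log (R / g) := by positivity
  exact fin_aux hC1 (by linarith) hX8 hX b1 b1' (Real.exp_pos _).le hG0

end Pool.Agent.P8H20.KV
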