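import Pool.Agent.P8H73.KV.Stm

set_option autoImplicit false

namespace Pool.Agent.P8H20.KV

open Finset Pool.Agent.P8H73.KV

theorem qb : S_QB := by
  intro k k' h g R G0 Q P v hk hkQ hdvd hh hhG hkh hg hgG hG0 hR hP hv hvQ hor
  have hk' : (1 : ℝ) ≤ k := by exact_mod_cast hk
  have hkpos : (0 : ℝ) < k := by linarith
  have hk'k : (k' : ℝ) ≤ k := by exact_mod_cast Nat.le_of_dvd (by omega) hdvd
  have hk'0 : (0 : ℝ) ≤ k' := by positivity
  have hh1 : (1 : ℝ) ≤ h := by exact_mod_cast hh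
  have hg1 : (1 : ℝ) ≤ g := by exact_mod_cast hg
  have hkh' : (k : ℝ) ≤ k' * h := by exact_mod_cast hkh
  have hRpos : (0 : ℝ) < R := by linarith
  have hGpos : (0 : ℝ) < G0 := by linarith
  have hQpos : (0 : ℝ) < Q := by linarith
  have e1 : R / G0 * P * (R / G0 / P) = R ^ 2 / G0 ^ 2 := by
    field_simp
  rw [e1]
  have e2 : (h : ℝ) * v / (k * g * (R ^ 2 / G0 ^ 2)) = h * v * G0 ^ 2 / (k * g * R ^ 2) := by
    field_simp
  rw [e2]
  have hden : (0 : ℝ) < k * g * R ^ 2 := by positivity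
  constructor
  · rcases hor with hor | hor
    · have h1 : Q / 8 ≤ k' * (h * v * G0 ^ 2 / (k * g * R ^ 2)) := by
        rw [← mul_div_assoc, le_div_iff₀ hden]
        have s1 : Q * R ^ 2 * k * g ≤ 8 * G0 * v * k * g := by
          have := mul_le_mul_of_nonneg_right hor (show (0 : ℝ) ≤ k * g by positivity)
          nlinarith [this]
        have s2 : 8 * G0 * v * k * g ≤ 8 * G0 * v * k * G0 := by
          have : (0 : ℝ) ≤ 8 * G0 * v * k := by positivity
          exact mul_le_mul_of_nonneg_left hgG this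
        have s3 : 8 * G0 * v * k * G0 ≤ 8 * G0 * v * (k' * h) * G0 := by
          have : (0 : ℝ) ≤ 8 * G0 * v * G0 := by positivity
          nlinarith [mul_le_mul_of_nonneg_left hkh' this]
        nlinarith [s1, s2, s3]
      have h2 : Q / (16 * G0) ≤ Q / 8 := by
        apply div_le_div_of_nonneg_left hQpos.le (by norm_num)
        linarith
      have : (k' : ℝ) * (1 + h * v * G0 ^ 2 / (k * g * R ^ 2)) = k' + k' * (h * v * G0 ^ 2 / (k * g * R ^ 2)) := by ring
      rw [this]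
      linarith
    · have h1 : Q / (16 * G0) ≤ k' := by
        rw [div_le_iff₀ (by positivity)]
        have : (k' : ℝ) * h ≤ k' * G0 := mul_le_mul_of_nonneg_left hhG hk'0
        nlinarith
      have h2 : (0 : ℝ) ≤ k' * (h * v * G0 ^ 2 / (k * g * R ^ 2)) := by positivity
      nlinarith
  · have h1 : (k' : ℝ) * (h * v * G0 ^ 2 / (k * g * R ^ 2)) ≤ 3 * Q * G0 ^ 3 := by
      rw [← mul_div_assoc, div_le_iff₀ hden]
      have s1 : (k' : ℝ) * (h * v * G0 ^ 2) ≤ k * (h * v * G0 ^ 2) :=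
        mul_le_mul_of_nonneg_right hk'k (by positivity)
      have s2 : (k : ℝ) * (h * v * G0 ^ 2) ≤ k * (G0 * v * G0 ^ 2) := by
        apply mul_le_mul_of_nonneg_left _ hkpos.le
        apply mul_le_mul_of_nonneg_right _ (by positivity)
        exact mul_le_mul_of_nonneg_right hhG hv
      have s3 : (k : ℝ) * (G0 * v * G0 ^ 2) ≤ k * (G0 * (3 * Q * R ^ 2) * G0 ^ 2) := by
        apply mul_le_mul_of_nonneg_left _ hkpos.le
        apply mul_le_mul_of_nonneg_right _ (by positivity)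
        exact mul_le_mul_of_nonneg_left hvQ hGpos.le
      have s4 : (k : ℝ) * (G0 * (3 * Q * R ^ 2) * G0 ^ 2) = 3 * Q * G0 ^ 3 * (k * 1 * R ^ 2) := by ring
      have s5 : 3 * Q * G0 ^ 3 * (k * 1 * R ^ 2) ≤ 3 * Q * G0 ^ 3 * (k * g * R ^ 2) := by
        apply mul_le_mul_of_nonneg_left _ (by positivity)
        apply mul_le_mul_of_nonneg_right _ (by positivity)
        exact mul_le_mul_of_nonneg_left hg1 hkpos.le
      linarith
    have h2 : (k' : ℝ) ≤ Q * G0 ^ 3 := by
      have : (1 : ℝ) ≤ G0 ^ 3 := one_le_pow₀ hG0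
      nlinarith
    have : (k' : ℝ) * (1 + h * v * G0 ^ 2 / (k * g * R ^ 2)) = k' + k' * (h * v * G0 ^ 2 / (k * g * R ^ 2)) := by ring
    rw [this]
    linarith

end Pool.Agent.P8H20.KV
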