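import Pool.Agent.P8H73.KV.Stm

set_option autoImplicit false

namespace Pool.Agent.P8H20.KV

open Finset Pool.Agent.P8H73.KV

/-- representations of total weight at most `W` -/
def Rep (W : ℝ) (A : ℕ → ℕ → ℝ) : Prop :=
  ∃ (ι : Type) (_ : Fintype ι) (w : ι → ℝ) (f g : ι → ℕ → ℝ), (∀ i, 0 ≤ w i) ∧ ∑ i, w i ≤ W ∧
    (∀ i n, |f i n| ≤ 1) ∧ (∀ i n, |g i n| ≤ 1) ∧ ∀ p r, A p r = ∑ i, w i * (f i p * g i r)

theorem Rep.add {W W' : ℝ} {A B : ℕ → ℕ → ℝ} (hA : Rep W A) (hB : Rep W' B) :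
    Rep (W + W') (fun p r => A p r + B p r) := by
  obtain ⟨ι, _, w, f, g, h1, h2, h3, h4, h5⟩ := hA
  obtain ⟨κ, _, w', f', g', h1', h2', h3', h4', h5'⟩ := hB
  refine ⟨ι ⊕ κ, inferInstance, Sum.elim w w', Sum.elim f f', Sum.elim g g', ?_, ?_, ?_, ?_, ?_⟩
  · rintro (i | i)
    · exact h1 i
    · exact h1' i
  · rw [Fintype.sum_sum_type]
    simpa using add_le_add h2 h2'
  · rintro (i | i)
    · exact h3 i
    · exact h3' i
  · rintro (i | i)
    · exact h4 i
    · exact h4' i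
  · intro p r
    rw [Fintype.sum_sum_type]
    beta_reduce
    rw [h5, h5']
    simp

theorem Rep.mul {W W' : ℝ} {A B : ℕ → ℕ → ℝ} (hA : Rep W A) (hB : Rep W' B) :
    Rep (W * W') (fun p r => A p r * B p r) := by
  obtain ⟨ι, _, w, f, g, h1, h2, h3, h4, h5⟩ := hA
  obtain ⟨κ, _, w', f', g', h1', h2', h3', h4', h5'⟩ := hB
  refine ⟨ι × κ, inferInstance, fun x => w x.1 * w' x.2, fun x n => f x.1 n * f' x.2 n,
    fun x n => g x.1 n * g' x.2 n, ?_, ?_, ?_, ?_, ?_⟩
  · rintro ⟨i, j⟩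
    exact mul_nonneg (h1 i) (h1' j)
  · rw [Fintype.sum_prod_type, ← Finset.sum_mul_sum]
    have a : 0 ≤ ∑ i, w' i := Finset.sum_nonneg fun i _ => h1' i
    have b : 0 ≤ ∑ i, w i := Finset.sum_nonneg fun i _ => h1 i
    exact mul_le_mul h2 h2' a (le_trans b h2)
  · rintro ⟨i, j⟩ n
    rw [abs_mul]
    exact mul_le_one₀ (h3 i n) (abs_nonneg _) (h3' j n)
  · rintro ⟨i, j⟩ n
    rw [abs_mul]
    exact mul_le_one₀ (h4 i n) (abs_nonneg _) (h4' j n)
  · intro p r
    rw [Fintype.sum_prod_type]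
    beta_reduce
    rw [h5, h5', Finset.sum_mul_sum]
    refine Finset.sum_congr rfl fun i _ => Finset.sum_congr rfl fun j _ => ?_
    ring

theorem Rep.comp {W : ℝ} {A : ℕ → ℕ → ℝ} (hA : Rep W A) (a b : ℕ → ℕ) :
    Rep W (fun p r => A (a p) (b r)) := by
  obtain ⟨ι, _, w, f, g, h1, h2, h3, h4, h5⟩ := hA
  exact ⟨ι, inferInstance, w, fun i n => f i (a n), fun i n => g i (b n), h1, h2, fun i n => h3 i _,
    fun i n => h4 i _, fun p r => h5 _ _⟩

theorem Rep.one (f g : ℕ → ℝ) (hf : ∀ n, |f n| ≤ 1) (hg : ∀ n, |g n| ≤ 1) {w : ℝ} (hw : 0 ≤ w) :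
    Rep w (fun p r => w * (f p * g r)) :=
  ⟨Unit, inferInstance, fun _ => w, fun _ => f, fun _ => g, fun _ => hw, by simp, fun _ => hf, fun _ => hg,
    by simp⟩

theorem Rep.congr {W : ℝ} {A B : ℕ → ℕ → ℝ} (hA : Rep W A) (h : ∀ p r, B p r = A p r) : Rep W B := by
  have : B = A := by funext p r; exact h p r
  rw [this]; exact hA

/-- equality of the last bits -/
theorem rep_bit : Rep 1 (fun p r => if p % 2 = r % 2 then 1 else 0) := by
  have h1 : Rep (1 / 2) (fun p r => (1 / 2 : ℝ) * (1 * 1)) :=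
    Rep.one (fun _ => 1) (fun _ => 1) (by simp) (by simp) (by norm_num)
  have h2 : Rep (1 / 2) (fun p r => (1 / 2 : ℝ) * ((-1) ^ p * (-1) ^ r)) :=
    Rep.one (fun p => (-1) ^ p) (fun p => (-1) ^ p) (by simp) (by simp) (by norm_num)
  have h := h1.add h2
  rw [show (1 / 2 + 1 / 2 : ℝ) = 1 by norm_num] at h
  refine h.congr fun p r => ?_
  rcases Nat.mod_two_eq_zero_or_one p with hp | hp <;> rcases Nat.mod_two_eq_zero_or_one r with hr | hr
  · rw [hp, hr, (Nat.even_iff.2 hp).neg_one_pow, (Nat.even_iff.2 hr).neg_one_pow]; norm_num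
  · rw [hp, hr, (Nat.even_iff.2 hp).neg_one_pow, (Nat.odd_iff.2 hr).neg_one_pow]; norm_num
  · rw [hp, hr, (Nat.odd_iff.2 hp).neg_one_pow, (Nat.even_iff.2 hr).neg_one_pow]; norm_num
  · rw [hp, hr, (Nat.odd_iff.2 hp).neg_one_pow, (Nat.odd_iff.2 hr).neg_one_pow]; norm_num

/-- congruence modulo `2 ^ K` -/
theorem rep_eq (K : ℕ) : Rep 1 (fun p r => if p % 2 ^ K = r % 2 ^ K then 1 else 0) := by
  induction K with
  | zero =>
    have h1 : Rep 1 (fun p r => (1 : ℝ) * (1 * 1)) :=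
      Rep.one (fun _ => 1) (fun _ => 1) (by simp) (by simp) (by norm_num)
    refine h1.congr fun p r => ?_
    simp [Nat.mod_one]
  | succ K ih =>
    have h := (ih.comp (fun n => n / 2) (fun n => n / 2)).mul rep_bit
    rw [one_mul] at h
    refine h.congr fun p r => ?_
    have e : ∀ n : ℕ, n % 2 ^ (K + 1) = n % 2 + 2 * (n / 2 % 2 ^ K) := fun n => by
      rw [pow_succ', Nat.mod_mul]
    by_cases h1 : p % 2 = r % 2
    · by_cases h2 : p / 2 % 2 ^ K = r / 2 % 2 ^ K
      · rw [if_pos h1, if_pos h2, if_pos (by rw [e p, e r, h1, h2])]; norm_num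
      · rw [if_pos h1, if_neg h2, if_neg (by rw [e p, e r]; omega)]; norm_num
    · rw [if_neg h1, if_neg (by rw [e p, e r]; omega)]; norm_num

/-- comparison -/
theorem rep_lt (K : ℕ) : ∃ A : ℕ → ℕ → ℝ, Rep K A ∧ ∀ p r, p < 2 ^ K → r < 2 ^ K → A p r = if p < r then 1 else 0 := by
  induction K with
  | zero =>
    refine ⟨fun _ _ => 0, ?_, ?_⟩
    · have h1 : Rep 0 (fun p r => (0 : ℝ) * (1 * 1)) :=
        Rep.one (fun _ => 1) (fun _ => 1) (by simp) (by simp) (by norm_num)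
      simpa using h1
    · intro p r hp hr
      rw [if_neg (by simp at hp hr; omega)]
  | succ K ih =>
    obtain ⟨A, hA, hA2⟩ := ih
    have h0 : Rep 1 (fun p r => (1 : ℝ) * ((if p % 2 = 0 then 1 else 0) * (if r % 2 = 1 then 1 else 0))) :=
      Rep.one (fun p => if p % 2 = 0 then 1 else 0) (fun p => if p % 2 = 1 then 1 else 0)
        (by intro n; split_ifs <;> simp) (by intro n; split_ifs <;> simp) (by norm_num)
    have h := (hA.comp (fun n => n / 2) (fun n => n / 2)).add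
      (((rep_eq K).comp (fun n => n / 2) (fun n => n / 2)).mul h0)
    rw [one_mul] at h
    refine ⟨_, by push_cast; exact h, ?_⟩
    intro p r hp hr
    rw [pow_succ'] at hp hr
    have hp2 : p / 2 < 2 ^ K := by omega
    have hr2 : r / 2 < 2 ^ K := by omega
    rw [hA2 _ _ hp2 hr2, Nat.mod_eq_of_lt hp2, Nat.mod_eq_of_lt hr2]
    by_cases h1 : p / 2 < r / 2
    · have e1 : ¬ p / 2 = r / 2 := by omega
      have e2 : p < r := by omega
      simp [h1, e1, e2]
    · by_cases h2 : p / 2 = r / 2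
      · by_cases h3 : p % 2 = 0
        · by_cases h4 : r % 2 = 1
          · have e2 : p < r := by omega
            simp [h2, h3, h4, e2]
          · have e2 : ¬ p < r := by omega
            simp [h2, h3, h4, e2]
        · have e2 : ¬ p < r := by omega
          simp [h1, h3, e2]
      · have e2 : ¬ p < r := by omega
        simp [h1, h2, e2]

theorem sep : S_SEP := by
  refine ⟨6, by norm_num, ?_⟩
  intro X hX
  obtain ⟨A, ⟨ι, _, w, f, g, h1, h2, h3, h4, h5⟩, hA2⟩ := rep_lt (Nat.log 2 (X + 1) + 1)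
  set K := Nat.log 2 (X + 1) + 1 with hK
  have hXK : X + 1 < 2 ^ K := Nat.lt_pow_succ_log_self (by norm_num) _
  let e := Fintype.equivFin ι
  refine ⟨Fintype.card ι, fun j => if h : j < Fintype.card ι then w (e.symm ⟨j, h⟩) else 0,
    fun j n => if h : j < Fintype.card ι then f (e.symm ⟨j, h⟩) n else 0,
    fun j n => if h : j < Fintype.card ι then g (e.symm ⟨j, h⟩) (n + 1) else 0, ?_, ?_, ?_, ?_, ?_⟩
  · intro j
    dsimp only
    split_ifs
    · exact h1 _
    · exact le_rfl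
  · rw [Finset.sum_range]
    simp only [Fin.is_lt, dite_true, Fin.eta]
    rw [e.symm.sum_comp w]
    refine h2.trans ?_
    have hX0 : (2 : ℝ) ≤ X := by exact_mod_cast hX
    have hlog2 : (1 / 2 : ℝ) ≤ Real.log 2 := by have := Real.log_two_gt_d9; linarith
    have hl : Real.log 2 ≤ Real.log X := Real.log_le_log (by norm_num) hX0
    have a1 : (Nat.log 2 (X + 1) : ℝ) * Real.log 2 ≤ Real.log (X + 1) := by
      have := Nat.pow_log_le_self 2 (show X + 1 ≠ 0 by omega)
      have h' : ((2 : ℝ) ^ (Nat.log 2 (X + 1))) ≤ (X : ℝ) + 1 := by exact_mod_cast this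
      have := Real.log_le_log (by positivity) h'
      rwa [Real.log_pow] at this
    have a2 : Real.log (X + 1) ≤ 2 * Real.log X := by
      have : ((X : ℝ) + 1) ≤ X ^ 2 := by nlinarith
      have := Real.log_le_log (by positivity) this
      rw [Real.log_pow] at this
      exact_mod_cast this
    have a3 : (0 : ℝ) ≤ Nat.log 2 (X + 1) := by positivity
    rw [hK]
    push_cast
    nlinarith
  · intro j n
    dsimp only
    split_ifs
    · exact h3 _ _
    · simp
  · intro j n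
    dsimp only
    split_ifs
    · exact h4 _ _
    · simp
  · intro p r hp hr
    rw [Finset.sum_range]
    simp only [Fin.is_lt, dite_true, Fin.eta]
    rw [e.symm.sum_comp (fun i => w i * (f i p * g i (r + 1))), ← h5, hA2 _ _ (by omega) (by omega)]
    by_cases h : p ≤ r
    · rw [if_pos h, if_pos (by omega)]
    · rw [if_neg h, if_neg (by omega)]

end Pool.Agent.P8H20.KV
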