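import Pool.Agent.P8H73.KV.Stm

set_option autoImplicit false

namespace Pool.Agent.P8H20.KV

open Finset Pool.Agent.P8H73.KV

private theorem exp3 {x y : ℝ} (h : x + 2 ≤ y) : 3 * Real.exp x ≤ Real.exp y := by
  have h3 : (3 : ℝ) ≤ Real.exp 2 := by
    have := Real.add_one_le_exp (2 : ℝ); linarith
  calc 3 * Real.exp x ≤ Real.exp 2 * Real.exp x :=
        mul_le_mul_of_nonneg_right h3 (Real.exp_pos _).le
    _ = Real.exp (x + 2) := by rw [← Real.exp_add]; ring_nf
    _ ≤ _ := Real.exp_le_exp.2 h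

private theorem exp4 {x y : ℝ} (h : x + 3 ≤ y) : 4 * Real.exp x ≤ Real.exp y := by
  have h3 : (4 : ℝ) ≤ Real.exp 3 := by
    have := Real.add_one_le_exp (3 : ℝ); linarith
  calc 4 * Real.exp x ≤ Real.exp 3 * Real.exp x :=
        mul_le_mul_of_nonneg_right h3 (Real.exp_pos _).le
    _ = Real.exp (x + 3) := by rw [← Real.exp_add]; ring_nf
    _ ≤ _ := Real.exp_le_exp.2 h

private theorem log4 : Real.log 4 ≤ 3 := by
  have := Real.log_le_sub_one_of_pos (show (0 : ℝ) < 4 by norm_num); linarith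

private theorem log16 : Real.log 16 ≤ 4 := by
  have h : Real.log 16 = 2 * Real.log 4 := by
    rw [show (16 : ℝ) = 4 ^ 2 by norm_num, Real.log_pow]; norm_num
  have h2 : Real.log 4 = 2 * Real.log 2 := by
    rw [show (4 : ℝ) = 2 ^ 2 by norm_num, Real.log_pow]; norm_num
  have h3 := Real.log_two_lt_d9
  linarith

/-- common facts on `q` -/
private theorem qfacts {Q q G0 : ℝ} (hG0 : 1 ≤ G0) (hQ : 0 < Q) (h1 : Q / (16 * G0) ≤ q) (h2 : q ≤ 4 * Q * G0 ^ 3) :
    0 < q ∧ Real.log Q - 4 - Real.log G0 ≤ Real.log q ∧ Real.log q ≤ 3 + Real.log Q + 3 * Real.log G0 := by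
  have hG : 0 < G0 := by linarith
  have hq : 0 < q := lt_of_lt_of_le (by positivity) h1
  refine ⟨hq, ?_, ?_⟩
  · have := Real.log_le_log (by positivity) h1
    rw [Real.log_div hQ.ne' (by positivity), Real.log_mul (by norm_num) hG.ne'] at this
    have := log16
    linarith
  · have := Real.log_le_log hq h2
    rw [Real.log_mul (by positivity) (by positivity), Real.log_mul (by norm_num) hQ.ne', Real.log_pow] at this
    have := log4
    push_cast at *
    linarith

theorem xa : S_XA := by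
  refine ⟨100, by norm_num, ?_⟩
  intro s R G0 Q q g γ hs hR hG0 hg hgG hγ hγG hC hQ hQ1 hQ2 hq1 hq2
  obtain ⟨hq, hql, hqu⟩ := qfacts hG0 hQ hq1 hq2
  have hRpos : 0 < R := by linarith
  have hGpos : 0 < G0 := by linarith
  have hgpos : 0 < g := by linarith
  have hγpos : 0 < γ := by linarith
  set ρ := Real.log R with hρ
  set lam := Real.log G0 with hlam
  set μ := Real.log g with hμ
  set ν := Real.log γ with hν
  set κ := Real.log q with hκ
  have eR : R = Real.exp ρ := (Real.exp_log hRpos).symm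
  have eG : G0 = Real.exp lam := (Real.exp_log hGpos).symm
  have eg : g = Real.exp μ := (Real.exp_log hgpos).symm
  have eγ : γ = Real.exp ν := (Real.exp_log hγpos).symm
  have eq : q = Real.exp κ := (Real.exp_log hq).symm
  have hlam0 : 0 ≤ lam := Real.log_nonneg hG0
  have hμ0 : 0 ≤ μ := Real.log_nonneg hg
  have hν0 : 0 ≤ ν := Real.log_nonneg hγ
  have hμl : μ ≤ lam := Real.log_le_log hgpos hgG
  have hνl : ν ≤ lam := Real.log_le_log hγpos hγG
  have hZ : R / g / γ = Real.exp (ρ - μ - ν) := by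
    rw [Real.exp_sub, Real.exp_sub, ← eR, ← eg, ← eγ]
  have hZ1 : R / G0 / γ = Real.exp (ρ - lam - ν) := by
    rw [Real.exp_sub, Real.exp_sub, ← eR, ← eG, ← eγ]
  have hs1 : (1 : ℝ) ≤ s := by exact_mod_cast hs
  have hsμ : s * μ ≤ s * lam := mul_le_mul_of_nonneg_left hμl (by linarith)
  have hsν : s * ν ≤ s * lam := mul_le_mul_of_nonneg_left hνl (by linarith)
  have hsμ0 : 0 ≤ s * μ := mul_nonneg (by linarith) hμ0
  have hsν0 : 0 ≤ s * ν := mul_nonneg (by linarith) hν0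
  have hsl : lam ≤ s * lam := by nlinarith
  rw [hZ, hZ1, eq]
  have key : Real.exp κ * (1 + Real.exp (ρ - μ - ν) ^ (2 * s) / (Real.exp (ρ - lam - ν) * Real.exp κ)) *
      (1 + Real.exp (ρ - μ - ν) ^ (2 * s) / (Real.exp (ρ - lam - ν) * Real.exp κ)) =
      Real.exp κ + 2 * Real.exp (2 * s * (ρ - μ - ν) - (ρ - lam - ν)) +
        Real.exp (4 * s * (ρ - μ - ν) - 2 * (ρ - lam - ν) - κ) := by
    have e1 : Real.exp (ρ - μ - ν) ^ (2 * s) / (Real.exp (ρ - lam - ν) * Real.exp κ) =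
        Real.exp (2 * s * (ρ - μ - ν) - (ρ - lam - ν) - κ) := by
      rw [← Real.exp_nat_mul, ← Real.exp_add, ← Real.exp_sub]
      congr 1
      push_cast
      ring
    rw [e1]
    have e2 : Real.exp (2 * s * (ρ - μ - ν) - (ρ - lam - ν)) =
        Real.exp κ * Real.exp (2 * s * (ρ - μ - ν) - (ρ - lam - ν) - κ) := by
      rw [← Real.exp_add]; congr 1; ring
    have e3 : Real.exp (4 * s * (ρ - μ - ν) - 2 * (ρ - lam - ν) - κ) =
        Real.exp κ * Real.exp (2 * s * (ρ - μ - ν) - (ρ - lam - ν) - κ) *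
          Real.exp (2 * s * (ρ - μ - ν) - (ρ - lam - ν) - κ) := by
      rw [← Real.exp_add, ← Real.exp_add]; congr 1; ring
    rw [e2, e3]
    ring
  rw [key]
  have key2 : Real.exp (-(ρ / 3)) * (Real.exp (ρ - μ - ν) ^ s * Real.exp (ρ - μ - ν) ^ s) =
      Real.exp (-(ρ / 3) + 2 * s * (ρ - μ - ν)) := by
    rw [← Real.exp_nat_mul, ← Real.exp_add, ← Real.exp_add]
    congr 1
    ring
  rw [key2]
  have hC' : 100 * s + 100 * (s * lam) ≤ ρ := by nlinarith
  have hl2 := Real.log_two_lt_d9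
  have t1 : 3 * Real.exp κ ≤ Real.exp (-(ρ / 3) + 2 * s * (ρ - μ - ν)) := by
    apply exp3
    linarith
  have t2 : 3 * Real.exp (2 * s * (ρ - μ - ν) - (ρ - lam - ν) + 1) ≤
      Real.exp (-(ρ / 3) + 2 * s * (ρ - μ - ν)) := by
    apply exp3
    linarith
  have t2' : 2 * Real.exp (2 * s * (ρ - μ - ν) - (ρ - lam - ν)) ≤
      Real.exp (2 * s * (ρ - μ - ν) - (ρ - lam - ν) + 1) := by
    have h2 : (2 : ℝ) ≤ Real.exp 1 := by
      have := Real.add_one_le_exp (1 : ℝ); linarith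
    rw [Real.exp_add _ (1 : ℝ)]
    nlinarith [Real.exp_pos (2 * s * (ρ - μ - ν) - (ρ - lam - ν))]
  have t3 : 3 * Real.exp (4 * s * (ρ - μ - ν) - 2 * (ρ - lam - ν) - κ) ≤
      Real.exp (-(ρ / 3) + 2 * s * (ρ - μ - ν)) := by
    apply exp3
    linarith
  linarith

theorem xb : S_XB := by
  intro θ hθ hθ'
  refine ⟨10 / θ, ?_, ?_⟩
  · rw [le_div_iff₀ hθ]; linarith
  intro s R G0 Q q g γ P hs hR hG0 hg hgG hγ hγG hC hQ hQ1 hQ2 hq1 hq2 hP hP1 hP2
  obtain ⟨hq, hql, hqu⟩ := qfacts hG0 hQ hq1 hq2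
  have hRpos : 0 < R := by linarith
  have hGpos : 0 < G0 := by linarith
  have hgpos : 0 < g := by linarith
  have hγpos : 0 < γ := by linarith
  have hPpos : 0 < P := by linarith
  rw [Real.log_mul (by norm_num) hPpos.ne'] at hP1
  set ρ := Real.log R with hρ
  set lam := Real.log G0 with hlam
  set μ := Real.log g with hμ
  set ν := Real.log γ with hν
  set κ := Real.log q with hκ
  set p := Real.log P with hp
  set b := Real.log 2 with hb
  have eR : R = Real.exp ρ := (Real.exp_log hRpos).symm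
  have eG : G0 = Real.exp lam := (Real.exp_log hGpos).symm
  have eg : g = Real.exp μ := (Real.exp_log hgpos).symm
  have eγ : γ = Real.exp ν := (Real.exp_log hγpos).symm
  have eq : q = Real.exp κ := (Real.exp_log hq).symm
  have eP : P = Real.exp p := (Real.exp_log hPpos).symm
  have e2 : (2 : ℝ) = Real.exp b := (Real.exp_log (by norm_num)).symm
  have hlam0 : 0 ≤ lam := Real.log_nonneg hG0
  have hμ0 : 0 ≤ μ := Real.log_nonneg hg
  have hν0 : 0 ≤ ν := Real.log_nonneg hγ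
  have hp0 : 0 ≤ p := Real.log_nonneg hP
  have hμl : μ ≤ lam := Real.log_le_log hgpos hgG
  have hνl : ν ≤ lam := Real.log_le_log hγpos hγG
  have hb1 : b ≤ 1 := by have := Real.log_two_lt_d9; linarith
  have hb0 : 0 ≤ b := Real.log_nonneg (by norm_num)
  have hs1 : (1 : ℝ) ≤ s := by exact_mod_cast hs
  have hspos : (0 : ℝ) < s := by linarith
  have hN : R / (g * P) / γ = Real.exp (ρ - μ - p - ν) := by
    rw [show ρ - μ - p - ν = ρ - (μ + p) - ν by ring, Real.exp_sub, Real.exp_sub, Real.exp_add, ← eR, ← eg, ← eγ, ← eP]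
  have hN1 : R / G0 / P / γ = Real.exp (ρ - lam - p - ν) := by
    rw [Real.exp_sub, Real.exp_sub, Real.exp_sub, ← eR, ← eG, ← eγ, ← eP]
  have hM : 2 * P * R / g / γ = Real.exp (b + p + ρ - μ - ν) := by
    rw [Real.exp_sub, Real.exp_sub, Real.exp_add, Real.exp_add, ← eR, ← eg, ← eγ, ← eP, ← e2]
  have hM1 : R / G0 * P / γ = Real.exp (ρ - lam + p - ν) := by
    rw [Real.exp_sub, Real.exp_add, Real.exp_sub, ← eR, ← eG, ← eγ, ← eP]
  rw [hN, hN1, hM, hM1, eq]
  have hsp : s * p ≤ 2 / 5 * ρ := by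
    have := mul_le_mul_of_nonneg_left hP2 hspos.le
    have e : (s : ℝ) * (2 / (5 * s) * ρ) = 2 / 5 * ρ := by field_simp
    linarith
  have hsp2 : θ * ρ ≤ s * b + s * p := by
    have := mul_le_mul_of_nonneg_left hP1 hspos.le
    have e : (s : ℝ) * (θ / s * ρ) = θ * ρ := by field_simp
    linarith
  have hpp : p ≤ s * p := by nlinarith
  have hsμ : s * μ ≤ s * lam := mul_le_mul_of_nonneg_left hμl (by linarith)
  have hsν : s * ν ≤ s * lam := mul_le_mul_of_nonneg_left hνl (by linarith)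
  have hsμ0 : 0 ≤ s * μ := mul_nonneg (by linarith) hμ0
  have hsν0 : 0 ≤ s * ν := mul_nonneg (by linarith) hν0
  have hsl : lam ≤ s * lam := by nlinarith
  have hsb : s * b ≤ s := by nlinarith
  have hsb0 : 0 ≤ s * b := by positivity
  have hθρ : 10 * s + 10 * (s * lam) ≤ θ * ρ := by
    have := mul_le_mul_of_nonneg_left hC hθ.le
    have e : θ * (10 / θ * s * (1 + lam)) = 10 * s + 10 * (s * lam) := by field_simp
    linarith
  have hρ0 : 0 ≤ ρ := Real.log_nonneg (by linarith)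
  have hθρ2 : θ * ρ ≤ 1 / 40 * ρ := mul_le_mul_of_nonneg_right hθ' hρ0
  have key : Real.exp κ * (1 + Real.exp (ρ - μ - p - ν) ^ (2 * (s + 1)) / (Real.exp (ρ - lam - p - ν) * Real.exp κ)) *
      (1 + Real.exp (b + p + ρ - μ - ν) ^ (2 * s) / (Real.exp (ρ - lam + p - ν) * Real.exp κ)) =
      Real.exp κ + Real.exp ((2 * s + 2) * (ρ - μ - p - ν) - (ρ - lam - p - ν)) +
        Real.exp (2 * s * (b + p + ρ - μ - ν) - (ρ - lam + p - ν)) +
        Real.exp ((2 * s + 2) * (ρ - μ - p - ν) + 2 * s * (b + p + ρ - μ - ν) - (ρ - lam - p - ν) -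
          (ρ - lam + p - ν) - κ) := by
    have e1 : Real.exp (ρ - μ - p - ν) ^ (2 * (s + 1)) / (Real.exp (ρ - lam - p - ν) * Real.exp κ) =
        Real.exp ((2 * s + 2) * (ρ - μ - p - ν) - (ρ - lam - p - ν) - κ) := by
      rw [← Real.exp_nat_mul, ← Real.exp_add, ← Real.exp_sub]
      congr 1
      push_cast
      ring
    have e2 : Real.exp (b + p + ρ - μ - ν) ^ (2 * s) / (Real.exp (ρ - lam + p - ν) * Real.exp κ) =
        Real.exp (2 * s * (b + p + ρ - μ - ν) - (ρ - lam + p - ν) - κ) := by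
      rw [← Real.exp_nat_mul, ← Real.exp_add, ← Real.exp_sub]
      congr 1
      push_cast
      ring
    rw [e1, e2]
    have e3 : Real.exp ((2 * s + 2) * (ρ - μ - p - ν) - (ρ - lam - p - ν)) =
        Real.exp κ * Real.exp ((2 * s + 2) * (ρ - μ - p - ν) - (ρ - lam - p - ν) - κ) := by
      rw [← Real.exp_add]; congr 1; ring
    have e4 : Real.exp (2 * s * (b + p + ρ - μ - ν) - (ρ - lam + p - ν)) =
        Real.exp κ * Real.exp (2 * s * (b + p + ρ - μ - ν) - (ρ - lam + p - ν) - κ) := by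
      rw [← Real.exp_add]; congr 1; ring
    have e5 : Real.exp ((2 * s + 2) * (ρ - μ - p - ν) + 2 * s * (b + p + ρ - μ - ν) - (ρ - lam - p - ν) -
          (ρ - lam + p - ν) - κ) =
        Real.exp κ * Real.exp ((2 * s + 2) * (ρ - μ - p - ν) - (ρ - lam - p - ν) - κ) *
          Real.exp (2 * s * (b + p + ρ - μ - ν) - (ρ - lam + p - ν) - κ) := by
      rw [← Real.exp_add, ← Real.exp_add]; congr 1; ring
    rw [e3, e4, e5]
    ring
  rw [key]
  have key2 : Real.exp (-(θ * ρ)) * (Real.exp (b + p + ρ - μ - ν) ^ s * Real.exp (ρ - μ - p - ν) ^ (s + 1)) =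
      Real.exp (-(θ * ρ) + s * (b + p + ρ - μ - ν) + (s + 1) * (ρ - μ - p - ν)) := by
    rw [← Real.exp_nat_mul, ← Real.exp_nat_mul, ← Real.exp_add, ← Real.exp_add]
    congr 1
    push_cast
    ring
  rw [key2]
  have t1 : 4 * Real.exp κ ≤ Real.exp (-(θ * ρ) + s * (b + p + ρ - μ - ν) + (s + 1) * (ρ - μ - p - ν)) := by
    apply exp4
    linarith
  have t2 : 4 * Real.exp ((2 * s + 2) * (ρ - μ - p - ν) - (ρ - lam - p - ν)) ≤
      Real.exp (-(θ * ρ) + s * (b + p + ρ - μ - ν) + (s + 1) * (ρ - μ - p - ν)) := by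
    apply exp4
    linarith
  have t3 : 4 * Real.exp (2 * s * (b + p + ρ - μ - ν) - (ρ - lam + p - ν)) ≤
      Real.exp (-(θ * ρ) + s * (b + p + ρ - μ - ν) + (s + 1) * (ρ - μ - p - ν)) := by
    apply exp4
    linarith
  have t4 : 4 * Real.exp ((2 * s + 2) * (ρ - μ - p - ν) + 2 * s * (b + p + ρ - μ - ν) - (ρ - lam - p - ν) -
          (ρ - lam + p - ν) - κ) ≤
      Real.exp (-(θ * ρ) + s * (b + p + ρ - μ - ν) + (s + 1) * (ρ - μ - p - ν)) := by
    apply exp4
    linarith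
  linarith

end Pool.Agent.P8H20.KV
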